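import Pool.Agent.KTB.StmtsKB

/-!
KTB, row FRB: different free points have disjoint classes.
-/

set_option autoImplicit false

namespace Pool.Agent.KTB.H65

open Pool.Agent.KTB Finset
open scoped Classical

theorem frb : FrbStmt := by
  intro ι T _ D S K μ k k' t t' hI hF hF' hne
  rw [Finset.disjoint_left]
  intro j hj hj'
  have hjK : j ∈ K := (Finset.mem_filter.1 hj).1
  have hjs : D.E S j ⊆ D.sg S t := (Finset.mem_filter.1 hj).2
  have hjs' : D.E S j ⊆ D.sg S t' := (Finset.mem_filter.1 hj').2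
  have h2 := hI.two j hjK
  obtain ⟨y, hy⟩ : (D.E S j).Nonempty := Finset.card_pos.1 (by omega)
  obtain ⟨_, c, hc, hcρ⟩ := Finset.mem_filter.1 (hjs hy)
  obtain ⟨_, c', hc', hcρ'⟩ := Finset.mem_filter.1 (hjs' hy)
  have ht'S : t' ∈ S := (Finset.mem_filter.1 hF'.tN).1
  have ht's : t' ∈ D.sg S t := by
    refine Finset.mem_filter.2 ⟨ht'S, c / c', div_ne_zero hc hc', ?_⟩
    intro ρ hρ
    have h1 := hcρ ρ hρ
    have h2 := hcρ' ρ hρ
    have h3 : c' * ρ t' = c * ρ t := by rw [← h1, ← h2]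
    have h4 : c / c' * ρ t = (c * ρ t) / c' := by ring
    rw [h4, ← h3]
    rw [mul_div_cancel_left₀ _ hc']
  obtain ⟨j', hj'p, hj'x⟩ := hF.cls t' ht's (Ne.symm hne)
  have hj'K : j' ∈ K := (Finset.mem_filter.1 hj'p).1
  have hjk : j' = k' := by
    by_contra h
    exact hj'x (hF'.oth j' hj'K h)
  obtain ⟨y', hcl⟩ := hF.pair j' hj'p t' ht'S hj'x
  have hsub : D.E S j' ⊆ {t', y'} := by
    intro b hb
    obtain ⟨hbS, hbx⟩ := Finset.mem_filter.1 hb
    rw [Finset.mem_insert, Finset.mem_singleton]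
    by_contra hbn
    rw [not_or] at hbn
    exact hbx (hcl.2.2.2.2.2 b hbS hbn.1 hbn.2)
  have h3 := Finset.card_le_card hsub
  have h4 := Finset.card_le_two (a := t') (b := y')
  have h5 := hF'.big
  rw [hjk] at h3
  omega

end Pool.Agent.KTB.H65
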